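import Mathlib
import Pool.Agent.W46.HM.Stm

/-! HM-TESUM: the two-ends sum from the greedy property. -/

set_option autoImplicit false

open Finset
open scoped Classical

namespace Pool.Agent.W405.HM

open Pool.Agent.W904.AK Pool.Agent.W46.HD Pool.Agent.W46.HM

/-- the logarithm as a sum over dyadic scales -/
theorem log_le_count (j : ℕ) (m : ℝ) (hm : 1 ≤ m) :
    max 0 (Real.log ((2 : ℝ) ^ j / m)) ≤
      Real.log 2 * ∑ k ∈ range (j + 1), (if m ≤ (2 : ℝ) ^ j / 2 ^ k then (1 : ℝ) else 0) := by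
  have h2 : 0 < Real.log 2 := Real.log_pos (by norm_num)
  have hm0 : 0 < m := by linarith
  induction j with
  | zero =>
    have h1 : Real.log ((2 : ℝ) ^ 0 / m) ≤ 0 := by
      apply Real.log_nonpos
      · positivity
      · rw [pow_zero, div_le_one hm0]
        exact hm
    rw [max_eq_left h1]
    refine mul_nonneg h2.le (Finset.sum_nonneg fun k _ => ?_)
    split_ifs <;> norm_num
  | succ j ih =>
    rw [Finset.sum_range_succ']
    have e1 : ∀ k ∈ range (j + 1), (if m ≤ (2 : ℝ) ^ (j + 1) / 2 ^ (k + 1) then (1 : ℝ) else 0) =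
        (if m ≤ (2 : ℝ) ^ j / 2 ^ k then (1 : ℝ) else 0) := by
      intro k _
      have e2 : (2 : ℝ) ^ (j + 1) / 2 ^ (k + 1) = (2 : ℝ) ^ j / 2 ^ k := by
        rw [pow_succ, pow_succ]
        field_simp
      rw [e2]
    rw [Finset.sum_congr rfl e1, mul_add]
    by_cases h : m ≤ (2 : ℝ) ^ (j + 1) / 2 ^ 0
    · rw [if_pos h, mul_one]
      have e3 : Real.log ((2 : ℝ) ^ (j + 1) / m) = Real.log 2 + Real.log ((2 : ℝ) ^ j / m) := by
        rw [← Real.log_mul (by norm_num) (by positivity)]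
        congr 1
        rw [pow_succ]
        ring
      rw [e3]
      refine max_le ?_ ?_
      · have := le_max_left 0 (Real.log ((2 : ℝ) ^ j / m))
        linarith
      · have := le_max_right 0 (Real.log ((2 : ℝ) ^ j / m))
        linarith
    · rw [if_neg h, mul_zero, add_zero]
      have h1 : Real.log ((2 : ℝ) ^ (j + 1) / m) ≤ 0 := by
        apply Real.log_nonpos
        · positivity
        · rw [div_le_one hm0]
          rw [pow_zero, div_one] at h
          linarith
      rw [max_eq_left h1]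
      refine mul_nonneg h2.le (Finset.sum_nonneg fun k _ => ?_)
      split_ifs <;> norm_num

theorem TESUM : S_TESUM := by
  intro ε hε hε1
  have hlog2 : 0 < Real.log 2 := Real.log_pos (by norm_num)
  set r : ℝ := (2 : ℝ) ^ (-ε) with hr
  have hr0 : 0 < r := Real.rpow_pos_of_pos (by norm_num) _
  have hr1 : r < 1 := Real.rpow_lt_one_of_one_lt_of_neg (by norm_num) (by linarith)
  have h2ε : 0 < (2 : ℝ) ^ ε := Real.rpow_pos_of_pos (by norm_num) _
  refine ⟨Real.log 2 * (3 * (2 : ℝ) ^ ε * (1 - r)⁻¹), ?_, ?_⟩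
  · have : 0 < 1 - r := by linarith
    positivity
  intro n hn μ hμ lev tm hlab hsum s x
  by_cases hex : ∃ z, μ z ≠ 0 ∧ lb lev z = lb lev s
  swap
  · push Not at hex
    have hL : ∑ z, (if lb lev z = lb lev s then μ z * max 0 (psi (2 ^ lev s) z x) else 0) = 0 := by
      refine Finset.sum_eq_zero fun z _ => ?_
      split_ifs with h
      · have : μ z = 0 := by
          by_contra h0
          exact hex z h0 h
        rw [this, zero_mul]
      · rfl
    rw [hL]
    refine mul_nonneg ?_ (Finset.sum_nonneg fun z _ => ?_)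
    · have : 0 < 1 - r := by linarith
      positivity
    · split_ifs
      · exact hμ z
      · exact le_rfl
  obtain ⟨s', hs', hss'⟩ := hex
  have hlev : lev s = lev s' := (congrArg Prod.fst hss').symm
  rw [hlev, ← hss']
  -- the labels and the times
  have hiff : ∀ z, μ z ≠ 0 → (lb lev z = lb lev s' ↔ tm z = tm s') := fun z hz =>
    (hlab z s' hz hs').symm
  have hW : ∑ z, (if lb lev z = lb lev s' then μ z else 0) =
      ∑ z, (if tm z = tm s' then μ z else 0) := by
    refine Finset.sum_congr rfl fun z _ => ?_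
    by_cases hz : μ z = 0
    · rw [hz]
      simp
    · simp only [hiff z hz]
  rw [hW]
  set w : ℝ := ∑ z, (if tm z = tm s' then μ z else 0) with hw
  have hw0 : 0 ≤ w := Finset.sum_nonneg fun z _ => by
    split_ifs
    · exact hμ z
    · exact le_rfl
  set J := lev s' with hJ
  have hstep : ∀ z, (if lb lev z = lb lev s' then μ z * max 0 (psi (2 ^ J) z x) else 0) ≤
      ∑ k ∈ range (J + 1), Real.log 2 *
        (if tm s' ≤ tm z ∧ |((z : ℕ) : ℝ) - ((x : ℕ) : ℝ)| ≤ (2 : ℝ) ^ J / 2 ^ k then μ z else 0) := by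
    intro z
    have hnn : 0 ≤ ∑ k ∈ range (J + 1), Real.log 2 *
        (if tm s' ≤ tm z ∧ |((z : ℕ) : ℝ) - ((x : ℕ) : ℝ)| ≤ (2 : ℝ) ^ J / 2 ^ k then μ z else 0) := by
      refine Finset.sum_nonneg fun k _ => mul_nonneg hlog2.le ?_
      split_ifs
      · exact hμ z
      · exact le_rfl
    by_cases hz : μ z = 0
    · refine le_trans (le_of_eq ?_) hnn
      rw [hz, zero_mul]
      simp
    by_cases hl : lb lev z = lb lev s'
    swap
    · rw [if_neg hl]
      exact hnn
    rw [if_pos hl]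
    have htm : tm z = tm s' := (hiff z hz).mp hl
    have h1 := log_le_count J (max 1 |((z : ℕ) : ℝ) - ((x : ℕ) : ℝ)|) (le_max_left _ _)
    have h3 : psi (2 ^ J) z x =
        Real.log ((2 : ℝ) ^ J / max 1 |((z : ℕ) : ℝ) - ((x : ℕ) : ℝ)|) := by
      unfold psi
      push_cast
      rfl
    rw [h3]
    refine (mul_le_mul_of_nonneg_left h1 (hμ z)).trans ?_
    rw [Finset.mul_sum, Finset.mul_sum]
    refine Finset.sum_le_sum fun k _ => ?_
    by_cases hk : max 1 |((z : ℕ) : ℝ) - ((x : ℕ) : ℝ)| ≤ (2 : ℝ) ^ J / 2 ^ k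
    · rw [if_pos hk, if_pos ⟨htm.ge, (le_max_right _ _).trans hk⟩]
      linarith
    · rw [if_neg hk, mul_zero, mul_zero]
      refine mul_nonneg hlog2.le ?_
      split_ifs
      · exact hμ z
      · exact le_rfl
  refine (Finset.sum_le_sum fun z _ => hstep z).trans ?_
  rw [Finset.sum_comm]
  have hk : ∀ k ∈ range (J + 1), ∑ z, Real.log 2 *
      (if tm s' ≤ tm z ∧ |((z : ℕ) : ℝ) - ((x : ℕ) : ℝ)| ≤ (2 : ℝ) ^ J / 2 ^ k then μ z else 0) ≤
      Real.log 2 * (3 * (2 : ℝ) ^ ε * w) * r ^ k := by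
    intro k hk
    rw [Finset.mem_range] at hk
    rw [← Finset.mul_sum]
    have hρ : (1 : ℝ) ≤ (2 : ℝ) ^ J / 2 ^ k := by
      rw [le_div_iff₀ (by positivity), one_mul]
      exact pow_le_pow_right₀ (by norm_num) (by omega)
    have h1 := hsum s' hs' (x : ℕ) ((2 : ℝ) ^ J / 2 ^ k) hρ
    have e1 : 2 * ((2 : ℝ) ^ J / 2 ^ k) / 2 ^ lev s' = 2 / 2 ^ k := by
      rw [← hJ]
      field_simp
    have e2 : ((2 : ℝ) / 2 ^ k) ^ ε = (2 : ℝ) ^ ε * r ^ k := by
      rw [Real.div_rpow (by norm_num) (by positivity), hr, div_eq_mul_inv]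
      congr 1
      rw [← Real.rpow_natCast, ← Real.rpow_natCast, ← Real.rpow_mul (by norm_num),
        ← Real.rpow_mul (by norm_num), ← Real.rpow_neg (by norm_num)]
      congr 1
      ring
    rw [e1, e2] at h1
    calc Real.log 2 * ∑ z, (if tm s' ≤ tm z ∧
          |((z : ℕ) : ℝ) - ((x : ℕ) : ℝ)| ≤ (2 : ℝ) ^ J / 2 ^ k then μ z else 0)
        ≤ Real.log 2 * (3 * ((2 : ℝ) ^ ε * r ^ k) * w) :=
          mul_le_mul_of_nonneg_left h1 hlog2.le
      _ = Real.log 2 * (3 * (2 : ℝ) ^ ε * w) * r ^ k := by ring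
  refine (Finset.sum_le_sum hk).trans ?_
  rw [← Finset.mul_sum]
  have hgeo : ∑ k ∈ range (J + 1), r ^ k ≤ (1 - r)⁻¹ := by
    rw [← tsum_geometric_of_lt_one hr0.le hr1]
    exact (summable_geometric_of_lt_one hr0.le hr1).sum_le_tsum _ fun k _ => by positivity
  calc Real.log 2 * (3 * (2 : ℝ) ^ ε * w) * ∑ k ∈ range (J + 1), r ^ k
      ≤ Real.log 2 * (3 * (2 : ℝ) ^ ε * w) * (1 - r)⁻¹ :=
        mul_le_mul_of_nonneg_left hgeo (by positivity)
    _ = Real.log 2 * (3 * (2 : ℝ) ^ ε * (1 - r)⁻¹) * w := by ring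

end Pool.Agent.W405.HM
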